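import Pool.Agent.helper69.AD.GS1

/-!
Module PT1: invariance of the sides of geodesics (MP_a29257_gt, geometry).
-/

open scoped MatrixGroups LinearAlgebra.Projectivization
open Matrix UpperHalfPlane

namespace AdSBend

/-- the form of `side` on vectors -/
def PT1_S (x y : ℝ) (u v : Fin 2 → ℝ) : ℝ :=
  ((u 0 - x * u 1) * (v 0 - x * v 1) + y ^ 2 * (u 1 * v 1)) * dt u v

theorem PT1_side (z : ℍ) (x y : Bd) : side z x y = PT1_S z.re z.im x.rep y.rep := rfl

theorem PT1_smul_rep (g : SL(2, ℝ)) (x : Bd) :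
    ∃ c : ℝ, c ≠ 0 ∧ (g • x).rep = c • (g.1 *ᵥ x.rep) := by
  have h : g • x = Projectivization.mk ℝ (g • x.rep)
      ((smul_ne_zero_iff_ne g).mpr x.rep_nonzero) := by
    conv_lhs => rw [← x.mk_rep]
    rfl
  obtain ⟨a, ha⟩ := Projectivization.exists_smul_eq_mk_rep ℝ (g • x.rep)
    ((smul_ne_zero_iff_ne g).mpr x.rep_nonzero)
  refine ⟨a, a.ne_zero, ?_⟩
  rw [h, ← ha]
  rfl

theorem PT1_S_smul (x y : ℝ) (u v : Fin 2 → ℝ) (a b : ℝ) :
    PT1_S x y (a • u) (b • v) = (a * b) ^ 2 * PT1_S x y u v := by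
  simp only [PT1_S, dt, Pi.smul_apply, smul_eq_mul]
  ring

/-- the denominator -/
def PT1_D (g : SL(2, ℝ)) (z : ℍ) : ℝ := (g.1 1 0 * z.re + g.1 1 1) ^ 2 + (g.1 1 0 * z.im) ^ 2

theorem PT1_det (g : SL(2, ℝ)) : g.1 0 0 * g.1 1 1 - g.1 0 1 * g.1 1 0 = 1 := by
  have := g.2
  rwa [Matrix.det_fin_two] at this

theorem PT1_D_pos (g : SL(2, ℝ)) (z : ℍ) : 0 < PT1_D g z := by
  unfold PT1_D
  by_cases hc : g.1 1 0 = 0
  · have h := PT1_det g
    rw [hc] at h ⊢
    have hd : g.1 1 1 ≠ 0 := by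
      intro h0; rw [h0] at h; simp at h
    have : 0 < g.1 1 1 ^ 2 := by positivity
    simpa using this
  · have h1 : 0 < (g.1 1 0 * z.im) ^ 2 := by
      have : g.1 1 0 * z.im ≠ 0 := mul_ne_zero hc z.im_ne_zero
      positivity
    have h2 : 0 ≤ (g.1 1 0 * z.re + g.1 1 1) ^ 2 := sq_nonneg _
    linarith

/-- real and imaginary part of the image point -/
theorem PT1_re_im (g : SL(2, ℝ)) (z : ℍ) :
    (g • z : ℍ).re = ((g.1 0 0 * z.re + g.1 0 1) * (g.1 1 0 * z.re + g.1 1 1)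
      + g.1 0 0 * g.1 1 0 * z.im ^ 2) / PT1_D g z ∧
    (g • z : ℍ).im = z.im / PT1_D g z := by
  have hD := (PT1_D_pos g z).ne'
  have hdet := PT1_det g
  have hden : Complex.normSq ((g.1 1 0 : ℂ) * z + (g.1 1 1 : ℂ)) = PT1_D g z := by
    rw [Complex.normSq_apply]
    unfold PT1_D
    simp only [Complex.add_re, Complex.mul_re, Complex.ofReal_re, Complex.ofReal_im,
      Complex.add_im, Complex.mul_im, UpperHalfPlane.coe_re, UpperHalfPlane.coe_im]
    ring
  have hz : ((g • z : ℍ) : ℂ) = ((g.1 0 0 : ℂ) * z + (g.1 0 1 : ℂ)) /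
      ((g.1 1 0 : ℂ) * z + (g.1 1 1 : ℂ)) := by
    rw [UpperHalfPlane.specialLinearGroup_apply]
    rfl
  constructor
  · have h1 : (g • z : ℍ).re = ((g • z : ℍ) : ℂ).re := rfl
    rw [h1, hz, Complex.div_re, hden]
    simp only [Complex.add_re, Complex.mul_re, Complex.ofReal_re, Complex.ofReal_im,
      Complex.add_im, Complex.mul_im, UpperHalfPlane.coe_re, UpperHalfPlane.coe_im]
    field_simp
    ring
  · have h1 : (g • z : ℍ).im = ((g • z : ℍ) : ℂ).im := rfl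
    rw [h1, hz, Complex.div_im, hden]
    simp only [Complex.add_re, Complex.mul_re, Complex.ofReal_re, Complex.ofReal_im,
      Complex.add_im, Complex.mul_im, UpperHalfPlane.coe_re, UpperHalfPlane.coe_im]
    field_simp
    linear_combination z.im * hdet

/-- the main identity -/
theorem PT1_main (g : SL(2, ℝ)) (z : ℍ) (u v : Fin 2 → ℝ) :
    PT1_S (g • z : ℍ).re (g • z : ℍ).im (g.1 *ᵥ u) (g.1 *ᵥ v)
      = PT1_S z.re z.im u v / PT1_D g z := by
  obtain ⟨h1, h2⟩ := PT1_re_im g z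
  have hD := (PT1_D_pos g z).ne'
  have hdet := PT1_det g
  rw [h1, h2]
  have hu0 : (g.1 *ᵥ u) 0 = g.1 0 0 * u 0 + g.1 0 1 * u 1 := by
    simp [Matrix.mulVec, dotProduct, Fin.sum_univ_two]
  have hu1 : (g.1 *ᵥ u) 1 = g.1 1 0 * u 0 + g.1 1 1 * u 1 := by
    simp [Matrix.mulVec, dotProduct, Fin.sum_univ_two]
  have hv0 : (g.1 *ᵥ v) 0 = g.1 0 0 * v 0 + g.1 0 1 * v 1 := by
    simp [Matrix.mulVec, dotProduct, Fin.sum_univ_two]
  have hv1 : (g.1 *ᵥ v) 1 = g.1 1 0 * v 0 + g.1 1 1 * v 1 := by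
    simp [Matrix.mulVec, dotProduct, Fin.sum_univ_two]
  have hdt : dt (g.1 *ᵥ u) (g.1 *ᵥ v) = dt u v := by
    simp only [dt, hu0, hu1, hv0, hv1]
    linear_combination (u 0 * v 1 - u 1 * v 0) * hdet
  unfold PT1_S
  rw [hdt, hu0, hu1, hv0, hv1]
  generalize g.1 0 0 = a at *
  generalize g.1 0 1 = b at *
  generalize hc : g.1 1 0 = c at *
  generalize hd : g.1 1 1 = d at *
  have hDe : PT1_D g z = (c * z.re + d) ^ 2 + (c * z.im) ^ 2 := by
    unfold PT1_D; rw [hc, hd]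
  generalize PT1_D g z = D at *
  have hU : ∀ p q : ℝ, (a * p + b * q) - ((a * z.re + b) * (c * z.re + d) + a * c * z.im ^ 2) / D
      * (c * p + d * q)
      = ((c * z.re + d) * (p - z.re * q) - c * z.im ^ 2 * q) / D := by
    intro p q
    rw [eq_div_iff hD, sub_mul, mul_assoc, mul_comm (c * p + d * q) D, ← mul_assoc,
      div_mul_cancel₀ _ hD, hDe]
    linear_combination ((c * z.re + d) * (p - z.re * q) - c * z.im ^ 2 * q) * hdet
  rw [hU, hU]
  field_simp
  rw [hDe]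
  ring

/-- PT1: invariance of the sides -/
theorem PT1 : PT1_stmt := by
  intro g z x y
  obtain ⟨c, hc, hx⟩ := PT1_smul_rep g x
  obtain ⟨d, hd, hy⟩ := PT1_smul_rep g y
  have hD := PT1_D_pos g z
  have key : side (g • z) (g • x) (g • y) = ((c * d) ^ 2 / PT1_D g z) * side z x y := by
    rw [PT1_side, PT1_side, hx, hy, PT1_S_smul, PT1_main]
    ring
  have hpos : 0 < (c * d) ^ 2 / PT1_D g z := by
    have : c * d ≠ 0 := mul_ne_zero hc hd
    positivity
  refine ⟨?_, ?_, ?_, ?_⟩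
  · rw [key]; exact mul_pos_iff_of_pos_left hpos
  · rw [key]
    constructor
    · intro h
      by_contra hn
      have := mul_nonneg hpos.le (not_lt.mp hn)
      linarith
    · intro h; exact mul_neg_of_pos_of_neg hpos h
  · rw [key, mul_eq_zero]
    constructor
    · intro h; exact h.resolve_left hpos.ne'
    · intro h; exact Or.inr h
  · unfold side dt; ring

end AdSBend
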