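import Pool.Agent.helper69.AD.GS5

/-!
Module FD4: crossing angles under the twist deformation (MP_a29257_gt, geometry).
-/

open scoped MatrixGroups LinearAlgebra.Projectivization
open Matrix UpperHalfPlane

namespace AdSBend

theorem FD4_nonneg_mul (X Y : SL(2, ℝ)) (hX : ∀ i j, 0 ≤ X.1 i j) (hY : ∀ i j, 0 ≤ Y.1 i j) :
    ∀ i j, 0 ≤ (X * Y).1 i j := by
  intro i j
  have : (X * Y).1 i j = X.1 i 0 * Y.1 0 j + X.1 i 1 * Y.1 1 j := by
    show (X.1 * Y.1) i j = _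
    rw [Matrix.mul_apply, Fin.sum_univ_two]
  rw [this]
  exact add_nonneg (mul_nonneg (hX _ _) (hY _ _)) (mul_nonneg (hX _ _) (hY _ _))

theorem FD4_nonneg_Dm (t : ℝ) : ∀ i j, 0 ≤ (Dm t).1 i j := by
  intro i j
  fin_cases i <;> fin_cases j <;> simp [Dm] <;> positivity

/-- splitting off the first factor -/
theorem FD4_first (R : ℤ → SL(2, ℝ)) (hR : ∀ i, PosMat (R i)) (t : ℤ → ℝ) (m : ℤ) (n : ℕ) :
    ∃ X : SL(2, ℝ), (∀ i j, 0 ≤ X.1 i j) ∧ cp R t m (n + 1) = R m * X := by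
  induction n with
  | zero =>
    refine ⟨Dm (t (m + 1)), FD4_nonneg_Dm _, ?_⟩
    show cp R t m 0 * (R (m + (0 : ℕ)) * Dm (t (m + (0 : ℕ) + 1))) = _
    show (1 : SL(2, ℝ)) * (R (m + (0 : ℕ)) * Dm (t (m + (0 : ℕ) + 1))) = _
    simp
  | succ n ih =>
    obtain ⟨X, hX, h⟩ := ih
    refine ⟨X * (R (m + ((n + 1 : ℕ) : ℤ)) * Dm (t (m + ((n + 1 : ℕ) : ℤ) + 1))), ?_, ?_⟩
    · exact FD4_nonneg_mul _ _ hX
        (FD4_nonneg_mul _ _ (fun i j => (hR _ i j).le) (FD4_nonneg_Dm _))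
    · show cp R t m (n + 1) * (R (m + ((n + 1 : ℕ) : ℤ)) * Dm (t (m + ((n + 1 : ℕ) : ℤ) + 1))) = _
      rw [h, mul_assoc]

/-- the product without its last translation has comparable entries, uniformly in the
parameters -/
theorem FD4_comp (f3 : FD3_stmt) (c6 : FC6_stmt) (R : ℤ → SL(2, ℝ)) (hR : ∀ i, PosMat (R i))
    (m : ℤ) (n : ℕ) : ∃ C : ℝ, 0 < C ∧ ∀ t : ℤ → ℝ,
      PosMat (cp R t m n * R (m + n)) ∧
      ∀ i j k l, (cp R t m n * R (m + n)).1 i j ≤ C * (cp R t m n * R (m + n)).1 k l := by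
  cases n with
  | zero =>
    obtain ⟨C, hC, h1, -⟩ := f3.1 (R (m + (0 : ℕ))) (R (m + (0 : ℕ))) (hR _) (hR _)
    refine ⟨C, hC, fun t => ?_⟩
    have e : cp R t m 0 * R (m + (0 : ℕ)) = R (m + (0 : ℕ)) := by
      show (1 : SL(2, ℝ)) * R (m + (0 : ℕ)) = _
      rw [one_mul]
    rw [e]
    exact ⟨hR _, h1⟩
  | succ n =>
    obtain ⟨C, hC, -, h2⟩ := f3.1 (R m) (R (m + ((n + 1 : ℕ) : ℤ))) (hR _) (hR _)
    refine ⟨C, hC, fun t => ?_⟩
    refine ⟨c6.1 _ _ (c6.2.2.2 R t m n hR) (hR _), ?_⟩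
    obtain ⟨X, hX, h⟩ := FD4_first R hR t m n
    rw [h]
    exact h2 X hX

theorem FD4_PEq_symm {g h : SL(2, ℝ)} (H : PEq g h) : PEq h g := by
  rcases H with H | H
  · exact Or.inl H.symm
  · right; rw [H, neg_neg]

/-- the two orientations of a leaf under a projective representation -/
theorem FD4_inv {Γ : Subgroup SL(2, ℝ)} {ρ : SL(2, ℝ) → SL(2, ℝ)} (hρ : IsPRep Γ ρ)
    {γ δ : SL(2, ℝ)} (hγ : γ ∈ Γ) (hδ : δ ∈ Γ) (h : PEq δ γ⁻¹) : PEq (ρ γ) (ρ δ)⁻¹ := by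
  have h1 : PEq (ρ 1) (ρ 1 * ρ 1) := hρ 1 Γ.one_mem 1 Γ.one_mem 1 Γ.one_mem (Or.inl (by simp))
  have h11 : PEq (ρ 1) 1 := by
    rcases h1 with h1 | h1
    · left
      exact mul_left_cancel (a := ρ 1) (by rw [mul_one]; exact h1.symm)
    · right
      apply mul_left_cancel (a := ρ 1)
      rw [mul_neg, mul_one]
      have h2 := congrArg (fun x => -x) h1
      simp only [neg_neg] at h2
      exact h2.symm
  have h2 : PEq 1 (γ * δ) := by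
    rcases h with h | h
    · left; rw [h, mul_inv_cancel]
    · right; rw [h, mul_neg, mul_inv_cancel, neg_neg]
  have h3 : PEq (ρ 1) (ρ γ * ρ δ) := hρ γ hγ δ hδ 1 Γ.one_mem h2
  -- ρ γ * ρ δ = ± 1
  have h4 : PEq (ρ γ * ρ δ) 1 := by
    rcases h3 with h3 | h3 <;> rcases h11 with h11 | h11
    · left; rw [← h3, h11]
    · right; rw [← h3, h11]
    · right
      have : ρ γ * ρ δ = -ρ 1 := by rw [h3, neg_neg]
      rw [this, h11]
    · left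
      have : ρ γ * ρ δ = -ρ 1 := by rw [h3, neg_neg]
      rw [this, h11, neg_neg]
  rcases h4 with h4 | h4
  · left; exact eq_inv_of_mul_eq_one_left h4
  · right
    have h5 : (-ρ γ) * ρ δ = 1 := by rw [neg_mul, h4, neg_neg]
    have h6 := eq_inv_of_mul_eq_one_left h5
    rw [← h6, neg_neg]

theorem FD4_ip_neg (X Y : Matrix (Fin 2) (Fin 2) ℝ) : ip (-X) Y = - ip X Y := by
  unfold ip
  rw [Matrix.neg_mul, Matrix.trace_neg]
  ring

/-- FD4: crossing angles under the twist deformation -/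
theorem FD4 (b4 : BD4_stmt) (b8 : BD8_stmt) (b11 : BD11_stmt) (g1 : GM1_stmt) (g2 : GM2_stmt)
    (n3 : PN3_stmt) (w1 : TW1_stmt) (w2 : TW2_stmt) (c6 : FC6_stmt) (f1 : FD1_stmt)
    (f3 : FD3_stmt) : FD4_stmt := by
  intro Γ hΓ S' f r z₀ hconj hoff K cls A hcga hcsw hA l hl q hq hq2 hq1
  obtain ⟨b4a, b4b, b4c, b4d, b4e, b4f⟩ := b4
  have hlc := S'.closed l hl
  have hcyc1 : Cyc q.1 l.2 q.2 := hq2
  have hcyc2 : Cyc q.2 l.1 q.1 := hq1
  have hcyc3 : Cyc q.1 q.2 l.1 := b4b _ _ _ (b4b _ _ _ hcyc2)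
  have hlink : Linked q.1 q.2 l.1 l.2 := Or.inr ⟨hcyc1, hcyc3⟩
  obtain ⟨n, B, H, hB, hall, hper, hframe, hpos, hHper, hmain⟩ :=
    f1 Γ hΓ S' f r z₀ hconj hoff q hq ⟨l, hl, hlink⟩
  obtain ⟨hc4, hc5⟩ := b4e _ _ _ _ hcyc1 hcyc3
  obtain ⟨m, hm⟩ := hall (sw l) (S'.swap l hl) hc5 (b4b _ _ _ (b4b _ _ _ hc4))
  -- generators
  have hgl := g1 Γ hΓ l hlc
  have hgq := g1 Γ hΓ q hq
  have hslc : IsClosedGeodesic Γ (sw l).1 (sw l).2 := S'.closed _ (S'.swap l hl)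
  have hgs := g1 Γ hΓ (sw l) hslc
  -- the representation
  have hrep := b11 Γ f r hconj
  have htr : ∀ p ∈ S'.L, 2 < |trc (r (gen Γ p))| := by
    intro p hp
    have h1 := g1 Γ hΓ p (S'.closed p hp)
    exact (b8.2.2.2.1 _).mpr ⟨_, hrep.2.2.2.2.1 _ h1.1 p h1.2.1⟩
  have hPR : IsPRep Γ r := hrep.2.2.2.2.2
  -- the constants
  set R : ℤ → SL(2, ℝ) := fun k => (H k)⁻¹ * H (k + 1) with hRdef
  obtain ⟨C, hC, hcomp⟩ := FD4_comp f3 c6 R hpos m n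
  obtain ⟨C₁, c₁, hc₁, hest⟩ := f3.2 C hC
  refine ⟨C₁, c₁, hc₁, fun T => ?_⟩
  obtain ⟨z, hz⟩ := (n3 Γ hΓ S' (B m) (hB m).1).1
  have hTga : ∀ γ ∈ Γ, ∀ p ∈ S'.L, (fun p => T (cls p)) (ga γ p) = (fun p => T (cls p)) p :=
    fun γ hγ p hp => by simp only [hcga γ hγ p hp]
  have hTsw : ∀ p ∈ S'.L, (fun p => T (cls p)) (sw p) = (fun p => T (cls p)) p :=
    fun p hp => by simp only [hcsw p hp]
  obtain ⟨e1, e2⟩ := hmain (fun p => T (cls p)) (A T) hTga hTsw (hA T) m z hz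
  have hρ : IsPRep Γ (fun γ => A T (γ • z₀) * r γ) :=
    ((w2 Γ hΓ S' r (fun p => T (cls p)) z₀ hPR htr hTga hTsw hoff).2 (A T) (hA T)).1
  set t : ℤ → ℝ := fun k => T (cls (B k)) with ht
  have hN := hcomp t
  set F : SL(2, ℝ) := A T z * H m with hF
  -- the last parameter
  have hlast : t (m + n + 1) = T (cls l) := by
    have h1 : B (m + n + 1) = ga (gen Γ q) (B m) := hper m
    show T (cls (B (m + n + 1))) = _
    rw [h1, hcga _ hgq.1 _ (hB m).1, ← hm, hcsw l hl]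
  have hlen : 0 < len (r (gen Γ (B m))) := (w1.2.2.2 _ (htr _ (hB m).1)).2.2.2.1
  have e3 : PEq (A T (gen Γ q • z₀) * r (gen Γ q))
      (F * ((cp R t m n * R (m + n)) * Dm (T (cls l))) * F⁻¹) := by
    have h1 : cp R t m (n + 1) = (cp R t m n * R (m + n)) * Dm (T (cls l)) := by
      show cp R t m n * (R (m + n) * Dm (t (m + n + 1))) = _
      rw [hlast]
      exact (mul_assoc _ _ _).symm
    rw [← h1]
    exact e1
  obtain ⟨h1, h2, h3⟩ := hest _ F _ _ (T (cls l)) _ hN.1 hN.2 hlen e2 e3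
  -- orientation
  have h4 : 2 < |trc (A T (gen Γ (B m) • z₀) * r (gen Γ (B m)))| := by
    refine (b8.2.2.2.1 _).mpr ⟨(F • bInf, F • bZero), ?_⟩
    rw [b8.1]
    exact ⟨F, _, ⟨rfl, rfl⟩, hlen, e2⟩
  have h5 : PEq (A T (gen Γ l • z₀) * r (gen Γ l))
      (A T (gen Γ (B m) • z₀) * r (gen Γ (B m)))⁻¹ := by
    rw [← hm]
    exact FD4_inv hρ hgl.1 hgs.1 ((g2 Γ hΓ).2.2 l hlc)
  have h6 : axis (A T (gen Γ l • z₀) * r (gen Γ l))
      = - axis (A T (gen Γ (B m) • z₀) * r (gen Γ (B m))) := by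
    obtain ⟨-, h7, -, h8, -⟩ := w1.2.2.1 (A T (gen Γ (B m) • z₀) * r (gen Γ (B m))) 0 0 h4
    rcases h5 with h5 | h5
    · rw [h5, h7]
    · rw [h5]
      have h9 : 2 < |trc (A T (gen Γ (B m) • z₀) * r (gen Γ (B m)))⁻¹| := by
        have : trc (A T (gen Γ (B m) • z₀) * r (gen Γ (B m)))⁻¹
            = trc (A T (gen Γ (B m) • z₀) * r (gen Γ (B m))) := by
          generalize A T (gen Γ (B m) • z₀) * r (gen Γ (B m)) = X
          unfold trc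
          rw [Matrix.SpecialLinearGroup.coe_inv, Matrix.adjugate_fin_two]
          simp [add_comm]
        rw [this]; exact h4
      obtain ⟨-, -, -, h10, -⟩ :=
        w1.2.2.1 ((A T (gen Γ (B m) • z₀) * r (gen Γ (B m)))⁻¹) 0 0 h9
      rw [h10, h7]
  rw [h6, FD4_ip_neg]
  refine ⟨?_, ?_, ?_⟩
  · linarith
  · linarith
  · rw [abs_neg]; exact h3

end AdSBend
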