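import Pool.Agent.helper69.AD.GS2
import Pool.Agent.helper46.AG.PT1

/-!
Module GM6: every nontrivial element of a closed surface group is hyperbolic
(MP_a29257_gt, geometry).
-/

open scoped MatrixGroups LinearAlgebra.Projectivization
open Matrix UpperHalfPlane

namespace AdSBend

theorem GM6_fin {α : Type*} [DecidableEq α] (F : Finset α) (e : α → ℝ) (he : ∀ a ∈ F, 0 < e a) :
    ∃ ε : ℝ, 0 < ε ∧ ε ≤ 1 ∧ ∀ a ∈ F, ε ≤ e a := by
  induction F using Finset.induction_on with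
  | empty => exact ⟨1, one_pos, le_rfl, fun a ha => absurd ha (Finset.notMem_empty a)⟩
  | insert a s ha ih =>
    obtain ⟨ε, h0, h1, h2⟩ := ih fun b hb => he b (Finset.mem_insert_of_mem hb)
    refine ⟨min ε (e a), lt_min h0 (he a (Finset.mem_insert_self a s)),
      (min_le_left _ _).trans h1, fun b hb => ?_⟩
    rcases Finset.mem_insert.mp hb with rfl | hb
    · exact min_le_right _ _
    · exact (min_le_left _ _).trans (h2 b hb)

theorem GM6_conj (γ h : SL(2, ℝ)) (hn : ¬ PEq γ 1) : ¬ PEq (h * γ * h⁻¹) 1 := by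
  rintro (h1 | h1)
  · apply hn; left
    have : γ = h⁻¹ * (h * γ * h⁻¹) * h := by group
    rw [this, h1]; group
  · apply hn; right
    have : γ = h⁻¹ * (h * γ * h⁻¹) * h := by group
    rw [this, h1]
    simp

/-- the injectivity radius is positive -/
theorem GM6_inj {Γ : Subgroup SL(2, ℝ)} (hΓ : IsClosedSurfaceGroup Γ) :
    ∃ ε : ℝ, 0 < ε ∧ ∀ γ ∈ Γ, ¬ PEq γ 1 → ∀ z : ℍ, ε ≤ dist z (γ • z) := by
  classical
  obtain ⟨K, hK, hcov⟩ := hΓ.cocompact
  have hK' : IsCompact (Metric.cthickening 1 K) := hK.cthickening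
  have hfin := hΓ.proper _ hK'
  set D : Finset SL(2, ℝ) := hfin.toFinset.filter (fun δ => ¬ PEq δ 1) with hD
  have hex : ∀ δ : SL(2, ℝ), ∃ e : ℝ, δ ∈ D → 0 < e ∧
      ∀ w ∈ Metric.cthickening 1 K, e ≤ dist w (δ • w) := by
    intro δ
    by_cases hδ : δ ∈ D
    · rw [hD, Finset.mem_filter, Set.Finite.mem_toFinset] at hδ
      obtain ⟨⟨hδΓ, -⟩, hδ1⟩ := hδ
      obtain ⟨e, he, h2⟩ := hK'.exists_forall_le' (f := fun w : ℍ => dist w (δ • w)) (a := 0)
        (by fun_prop) (by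
          intro w _
          rw [dist_pos]
          intro h
          exact hδ1 (hΓ.free δ hδΓ w h.symm))
      exact ⟨e, fun _ => ⟨he, h2⟩⟩
    · exact ⟨1, fun h => absurd h hδ⟩
  choose e he using hex
  obtain ⟨ε, h0, h1, h2⟩ := GM6_fin D e fun δ hδ => (he δ hδ).1
  refine ⟨ε, h0, fun γ hγ hn z => ?_⟩
  obtain ⟨h, hh, hz⟩ := hcov z
  by_contra hlt
  rw [not_le] at hlt
  have hd : dist (h • z) ((h * γ * h⁻¹) • (h • z)) = dist z (γ • z) := by
    rw [← mul_smul]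
    have : h * γ * h⁻¹ * h = h * γ := by group
    rw [this, mul_smul, dist_smul]
  have hmem : h • z ∈ Metric.cthickening 1 K := Metric.self_subset_cthickening K hz
  have hmem2 : (h * γ * h⁻¹) • (h • z) ∈ Metric.cthickening 1 K := by
    refine Metric.mem_cthickening_of_dist_le _ (h • z) 1 K hz ?_
    rw [dist_comm, hd]; linarith
  have hΓm : h * γ * h⁻¹ ∈ Γ := Γ.mul_mem (Γ.mul_mem hh hγ) (Γ.inv_mem hh)
  have hDm : h * γ * h⁻¹ ∈ D := by
    rw [hD, Finset.mem_filter, Set.Finite.mem_toFinset]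
    exact ⟨⟨hΓm, h • z, hmem, hmem2⟩, GM6_conj γ h hn⟩
  have h3 := (he _ hDm).2 _ hmem
  rw [hd] at h3
  have h4 := h2 _ hDm
  linarith

/-- the distance in terms of real and imaginary parts -/
theorem GM6_cosh (z w : ℍ) : Real.cosh (dist z w)
    = 1 + ((z.re - w.re) ^ 2 + (z.im - w.im) ^ 2) / (2 * z.im * w.im) := by
  rw [UpperHalfPlane.cosh_dist]
  congr 2
  rw [Complex.dist_eq, ← Complex.normSq_eq_norm_sq, Complex.normSq_apply]
  simp only [Complex.sub_re, Complex.sub_im, UpperHalfPlane.coe_re, UpperHalfPlane.coe_im]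
  ring

theorem GM6_small (ε : ℝ) (hε : 0 < ε) (z w : ℍ)
    (h : ((z.re - w.re) ^ 2 + (z.im - w.im) ^ 2) / (2 * z.im * w.im) < Real.cosh ε - 1) :
    dist z w < ε := by
  have h1 : Real.cosh (dist z w) < Real.cosh ε := by
    rw [GM6_cosh]; linarith
  rw [Real.cosh_lt_cosh, abs_of_nonneg dist_nonneg, abs_of_pos hε] at h1
  exact h1

/-- parabolic elements have arbitrarily small displacement -/
theorem GM6_parabolic (g : SL(2, ℝ)) (h2 : |trc g| = 2) (ε : ℝ) (hε : 0 < ε) :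
    ∃ z : ℍ, dist z (g • z) < ε := by
  have hdet := PT1_det g
  have hη : 0 < Real.cosh ε - 1 := by
    have := Real.one_lt_cosh.mpr hε.ne'
    linarith
  set η := Real.cosh ε - 1 with hηdef
  have htr : (g.1 0 0 + g.1 1 1) ^ 2 = 4 := by
    have : trc g ^ 2 = 4 := by rw [← sq_abs, h2]; norm_num
    exact this
  by_cases hc : g.1 1 0 = 0
  · -- translation
    have had : g.1 0 0 * g.1 1 1 = 1 := by rw [hc] at hdet; linarith
    have hdd : g.1 1 1 ^ 2 = 1 := by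
      have h3 : (g.1 0 0 - g.1 1 1) ^ 2 = 0 := by nlinarith
      have h4 : g.1 0 0 = g.1 1 1 := by
        have := pow_eq_zero_iff (two_ne_zero) |>.mp h3
        linarith
      rw [h4] at had; nlinarith
    set b := g.1 0 1 with hb
    -- height y with b^2 / (2 y^2) < η
    set y : ℝ := Real.sqrt (b ^ 2 / η + 1) with hy
    have hy0 : 0 < y := Real.sqrt_pos.mpr (by positivity)
    have hy2 : y ^ 2 = b ^ 2 / η + 1 := Real.sq_sqrt (by positivity)
    let z : ℍ := ⟨⟨0, y⟩, hy0⟩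
    have hzre : z.re = 0 := rfl
    have hzim : z.im = y := rfl
    refine ⟨z, GM6_small ε hε _ _ ?_⟩
    obtain ⟨e1, e2⟩ := PT1_re_im g z
    have hD : PT1_D g z = 1 := by
      unfold PT1_D; rw [hc]; simpa using hdd
    rw [e1, e2, hD, hzre, hzim, hc]
    simp only [mul_zero, zero_add, zero_mul, add_zero, div_one, sub_self, zero_sub, ne_eq,
      OfNat.ofNat_ne_zero, not_false_eq_true, zero_pow]
    have h5 : (-(g.1 0 1 * g.1 1 1)) ^ 2 = b ^ 2 := by
      have : (-(g.1 0 1 * g.1 1 1)) ^ 2 = g.1 0 1 ^ 2 * g.1 1 1 ^ 2 := by ring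
      rw [this, hdd, mul_one]
    rw [h5, div_lt_iff₀ (by positivity)]
    have h6 : η * (2 * y * y) = 2 * b ^ 2 + 2 * η := by
      have : η * (2 * y * y) = 2 * η * y ^ 2 := by ring
      rw [this, hy2]; field_simp
    rw [h6]
    nlinarith [sq_nonneg b]
  · -- one fixed point on the real line
    set a := g.1 0 0 with ha
    set b := g.1 0 1 with hb
    set c := g.1 1 0 with hcd
    set d := g.1 1 1 with hd
    set x₀ : ℝ := (a - d) / (2 * c) with hx₀
    have hcx : c * x₀ = (a - d) / 2 := by rw [hx₀]; field_simp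
    set y : ℝ := Real.sqrt (η / c ^ 2) with hy
    have hy0 : 0 < y := Real.sqrt_pos.mpr (by positivity)
    have hy2 : y ^ 2 = η / c ^ 2 := Real.sq_sqrt (by positivity)
    have hcy : c ^ 2 * y ^ 2 = η := by rw [hy2]; field_simp
    let z : ℍ := ⟨⟨x₀, y⟩, hy0⟩
    have hzre : z.re = x₀ := rfl
    have hzim : z.im = y := rfl
    refine ⟨z, GM6_small ε hε _ _ ?_⟩
    obtain ⟨e1, e2⟩ := PT1_re_im g z
    have hD : PT1_D g z = 1 + c ^ 2 * y ^ 2 := by
      unfold PT1_D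
      rw [← hcd, ← hd, hzre, hzim, hcx]
      nlinarith
    have hDpos := PT1_D_pos g z
    -- b from the fixed point equation
    have hbx : a * x₀ + b = (c * x₀ + d) * x₀ := by
      have h3 : 4 * c * (a * x₀ + b - (c * x₀ + d) * x₀) = 0 := by
        have h4 : 4 * c * (a * x₀ + b - (c * x₀ + d) * x₀)
            = 4 * (c * x₀) * (a - d) + 4 * (b * c) - 4 * (c * x₀) ^ 2 := by ring
        rw [h4, hcx]
        nlinarith
      have h5 := (mul_eq_zero.mp h3).resolve_left (by positivity)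
      linarith
    rw [e1, e2, hzre, hzim, ← ha, ← hb, ← hcd, ← hd, hbx]
    rw [hD] at hDpos ⊢
    have hσ : (c * x₀ + d) ^ 2 = 1 := by rw [hcx]; nlinarith
    have hnum : (c * x₀ + d) * x₀ * (c * x₀ + d) + a * c * y ^ 2 = x₀ + a * c * y ^ 2 := by
      have : (c * x₀ + d) * x₀ * (c * x₀ + d) = (c * x₀ + d) ^ 2 * x₀ := by ring
      rw [this, hσ, one_mul]
    rw [hnum]
    have hca : (c * x₀ - a) ^ 2 = 1 := by rw [hcx]; nlinarith
    have hfirst : x₀ - (x₀ + a * c * y ^ 2) / (1 + c ^ 2 * y ^ 2)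
        = c * y ^ 2 * (c * x₀ - a) / (1 + c ^ 2 * y ^ 2) := by
      field_simp
      ring
    have hsecond : y - y / (1 + c ^ 2 * y ^ 2) = c ^ 2 * y ^ 3 / (1 + c ^ 2 * y ^ 2) := by
      field_simp
      ring
    rw [hfirst, hsecond, div_pow, div_pow, mul_pow, hca]
    have hval : ((c * y ^ 2) ^ 2 * 1 / (1 + c ^ 2 * y ^ 2) ^ 2
        + (c ^ 2 * y ^ 3) ^ 2 / (1 + c ^ 2 * y ^ 2) ^ 2) / (2 * y * (y / (1 + c ^ 2 * y ^ 2)))
        = c ^ 2 * y ^ 2 / 2 := by
      field_simp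
    rw [hval, hcy]
    linarith

/-- elliptic elements have a fixed point -/
theorem GM6_elliptic (g : SL(2, ℝ)) (h2 : |trc g| < 2) : ∃ z : ℍ, g • z = z := by
  have hdet := PT1_det g
  have htr : (g.1 0 0 + g.1 1 1) ^ 2 < 4 := by
    have h3 : |trc g| ^ 2 < 2 ^ 2 := pow_lt_pow_left₀ h2 (abs_nonneg _) two_ne_zero
    rw [sq_abs] at h3
    have h4 : (g.1 0 0 + g.1 1 1) ^ 2 = trc g ^ 2 := rfl
    rw [h4]; linarith
  have hc : g.1 1 0 ≠ 0 := by
    intro hc
    rw [hc] at hdet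
    nlinarith [sq_nonneg (g.1 0 0 - g.1 1 1)]
  set a := g.1 0 0 with ha
  set b := g.1 0 1 with hb
  set c := g.1 1 0 with hcd
  set d := g.1 1 1 with hd
  set x₀ : ℝ := (a - d) / (2 * c) with hx₀
  have hcx : c * x₀ = (a - d) / 2 := by rw [hx₀]; field_simp
  set y : ℝ := Real.sqrt ((4 - (a + d) ^ 2) / (4 * c ^ 2)) with hy
  have hpos : 0 < (4 - (a + d) ^ 2) / (4 * c ^ 2) := by
    have : 0 < 4 - (a + d) ^ 2 := by linarith
    positivity
  have hy0 : 0 < y := Real.sqrt_pos.mpr hpos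
  have hy2 : y ^ 2 = (4 - (a + d) ^ 2) / (4 * c ^ 2) := Real.sq_sqrt hpos.le
  have hcy : c ^ 2 * y ^ 2 = (4 - (a + d) ^ 2) / 4 := by rw [hy2]; field_simp
  let z : ℍ := ⟨⟨x₀, y⟩, hy0⟩
  have hzre : z.re = x₀ := rfl
  have hzim : z.im = y := rfl
  obtain ⟨e1, e2⟩ := PT1_re_im g z
  have hD : PT1_D g z = 1 := by
    unfold PT1_D
    rw [← hcd, ← hd, hzre, hzim, mul_pow, hcy, hcx]
    ring
  refine ⟨z, UpperHalfPlane.ext_re_im ?_ ?_⟩
  · rw [e1, hD, div_one, hzre, hzim, ← ha, ← hb, ← hcd, ← hd]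
    have h3 : 4 * c * ((a * x₀ + b) * (c * x₀ + d) + a * c * y ^ 2 - x₀) = 0 := by
      have h4 : 4 * c * ((a * x₀ + b) * (c * x₀ + d) + a * c * y ^ 2 - x₀)
          = 4 * (a * (c * x₀) + b * c) * (c * x₀ + d) + 4 * a * (c ^ 2 * y ^ 2)
            - 4 * (c * x₀) := by ring
      rw [h4, hcy, hcx]
      have h5 : b * c = a * d - 1 := by linarith
      rw [h5]; ring
    have h6 := (mul_eq_zero.mp h3).resolve_left (by positivity)
    linarith
  · rw [e2, hD, div_one]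

/-- GM6: every nontrivial element is hyperbolic -/
theorem GM6 (h8 : BD8_stmt) : GM6_stmt := by
  intro Γ hΓ γ hγ hn
  rcases lt_trichotomy |trc γ| 2 with h | h | h
  · obtain ⟨z, hz⟩ := GM6_elliptic γ h
    exact absurd (hΓ.free γ hγ z hz) hn
  · obtain ⟨ε, hε, hinj⟩ := GM6_inj hΓ
    obtain ⟨z, hz⟩ := GM6_parabolic γ h ε hε
    have := hinj γ hγ hn z
    linarith
  · obtain ⟨p, hp⟩ := (h8.2.2.2.1 γ).mp h
    refine ⟨p, hp, hp.1, γ, hγ, fun h1 => hn (Or.inl h1), fun h1 => hn (Or.inr h1), hp.2.1,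
      hp.2.2.1⟩

end AdSBend
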