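import Pool.Agent.helper69.AD.GS2

/-!
Module PN6: chains of plaques between two points (MP_a29257_gt, geometry).
-/

open scoped MatrixGroups LinearAlgebra.Projectivization Topology
open Matrix UpperHalfPlane

namespace AdSBend

theorem PN6_swap (z : ℍ) (x y : Bd) : side z y x = - side z x y := by unfold side dt; ring

/-- the parameter at which a separating leaf crosses the segment -/
noncomputable def PN6_par (z z' : ℍ) (q : Bd × Bd) : ℝ :=
  side z q.1 q.2 / (side z q.1 q.2 - side z' q.1 q.2)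

theorem PN6_par_swap (z z' : ℍ) (q : Bd × Bd) : PN6_par z z' (q.2, q.1) = PN6_par z z' q := by
  unfold PN6_par
  simp only
  rw [PN6_swap z q.1 q.2, PN6_swap z' q.1 q.2]
  have : -side z q.1 q.2 - -side z' q.1 q.2 = -(side z q.1 q.2 - side z' q.1 q.2) := by ring
  rw [this, neg_div_neg_eq]

theorem PN6_sep_swap (z z' : ℍ) (q : Bd × Bd) : SepPts q.2 q.1 z z' ↔ SepPts q.1 q.2 z z' := by
  unfold SepPts
  rw [PN6_swap z q.1 q.2, PN6_swap z' q.1 q.2, neg_mul_neg]

theorem PN6_ne {A B : ℝ} (h : A * B < 0) : A - B ≠ 0 := by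
  intro h0
  have : A = B := by linarith
  rw [this] at h
  nlinarith [mul_self_nonneg B]

theorem PN6_val {A B : ℝ} (h : A * B < 0) (t : ℝ) :
    (1 - t) * A + t * B = (A - B) * (A / (A - B) - t) := by
  have := PN6_ne h
  field_simp
  ring

theorem PN6_pos_left {A B t : ℝ} (h : A * B < 0) (ht : t < A / (A - B)) :
    0 < ((1 - t) * A + t * B) * A := by
  rw [PN6_val h]
  have h1 : 0 < (A - B) * A := by nlinarith [mul_self_nonneg A]
  have h2 : 0 < A / (A - B) - t := by linarith
  have : (A - B) * (A / (A - B) - t) * A = (A - B) * A * (A / (A - B) - t) := by ring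
  rw [this]
  exact mul_pos h1 h2

theorem PN6_pos_right {A B t : ℝ} (h : A * B < 0) (ht : A / (A - B) < t) :
    0 < ((1 - t) * A + t * B) * B := by
  rw [PN6_val h]
  have h1 : (A - B) * B < 0 := by nlinarith [mul_self_nonneg B]
  have h2 : A / (A - B) - t < 0 := by linarith
  have : (A - B) * (A / (A - B) - t) * B = (A - B) * B * (A / (A - B) - t) := by ring
  rw [this]
  exact mul_pos_of_neg_of_neg h1 h2

theorem PN6_par_mem {A B : ℝ} (h : A * B < 0) : 0 < A / (A - B) ∧ A / (A - B) < 1 := by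
  have h0 := PN6_ne h
  have h1 : 0 < (A - B) * A := by nlinarith [mul_self_nonneg A]
  have h2 : (A - B) * B < 0 := by nlinarith [mul_self_nonneg B]
  constructor
  · have : A / (A - B) = (A - B) * A / (A - B) ^ 2 := by field_simp
    rw [this]; positivity
  · have : 1 - A / (A - B) = -((A - B) * B) / (A - B) ^ 2 := by field_simp; ring
    have h3 : 0 < 1 - A / (A - B) := by
      rw [this]
      have : 0 < -((A - B) * B) := by linarith
      positivity
    linarith

theorem PN6_nonsep {A B t : ℝ} (h : 0 < A * B) (h0 : 0 ≤ t) (h1 : t ≤ 1) :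
    0 < ((1 - t) * A + t * B) * A ∧ 0 < ((1 - t) * A + t * B) * B := by
  have hA : 0 < A * A := by
    have : A ≠ 0 := by rintro rfl; simp at h
    exact mul_self_pos.mpr this
  have hB : 0 < B * B := by
    have : B ≠ 0 := by rintro rfl; simp at h
    exact mul_self_pos.mpr this
  constructor
  · rcases h0.eq_or_lt with rfl | h0
    · simpa using hA
    · nlinarith [mul_pos h0 h, mul_nonneg (sub_nonneg.mpr h1) hA.le]
  · rcases h1.eq_or_lt with rfl | h1
    · simpa using hB
    · nlinarith [mul_pos (sub_pos.mpr h1) h, mul_nonneg h0 hB.le]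

theorem PN6_peel (t2 : PT2_stmt) (t3 : PT3_stmt) (t4 : PT4_stmt) (g5 : GM5_stmt)
    (n1 : PN1_stmt) {Γ : Subgroup SL(2, ℝ)} (hΓ : IsClosedSurfaceGroup Γ) (S : LeafSystem Γ)
    (z z' : ℍ) (hz : S.OffPt z) (hz' : S.OffPt z') (hns : ¬ S.SamePl z z') :
      ∃ p w, S.OffPt w ∧ S.Across p w z' ∧
        {q : Bd × Bd | q ∈ S.L ∧ SepPts q.1 q.2 z w} ∪ {p, (p.2, p.1)} =
          {q : Bd × Bd | q ∈ S.L ∧ SepPts q.1 q.2 z z'} ∧
        p ∉ {q : Bd × Bd | q ∈ S.L ∧ SepPts q.1 q.2 z w} ∧
        ∀ p' w', S.OffPt w' → S.Across p' w' z' → FrontPt p' z → p' = p := by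
  obtain ⟨t2a, t2b, -, -⟩ := t2
  obtain ⟨t3a, t3b⟩ := t3
  have hfin := (g5 Γ hΓ S).1 z z'
  have hne : {q : Bd × Bd | q ∈ S.L ∧ SepPts q.1 q.2 z z'}.Nonempty := by
    unfold LeafSystem.SamePl at hns
    push Not at hns
    obtain ⟨q, hq, hs⟩ := hns
    exact ⟨q, hq, hs⟩
  obtain ⟨p₀, hp₀, hmax₀⟩ := Set.exists_max_image _ (PN6_par z z') hfin hne
  -- orient the leaf
  obtain ⟨p, hpL, hps, hpz, hmax⟩ : ∃ p : Bd × Bd, p ∈ S.L ∧ SepPts p.1 p.2 z z' ∧
      side z p.1 p.2 < 0 ∧ ∀ q : Bd × Bd, q ∈ S.L → SepPts q.1 q.2 z z' →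
        PN6_par z z' q ≤ PN6_par z z' p := by
    rcases lt_or_gt_of_ne (hz p₀ hp₀.1) with h | h
    · exact ⟨p₀, hp₀.1, hp₀.2, h, fun q hq hs => hmax₀ q ⟨hq, hs⟩⟩
    · refine ⟨(p₀.2, p₀.1), S.swap _ hp₀.1, (PN6_sep_swap z z' p₀).mpr hp₀.2, ?_,
        fun q hq hs => ?_⟩
      · simp only
        rw [PN6_swap]; linarith
      · rw [PN6_par_swap]; exact hmax₀ q ⟨hq, hs⟩
  have hpz' : 0 < side z' p.1 p.2 := by
    unfold SepPts at hps
    by_contra hn
    have := mul_nonneg_of_nonpos_of_nonpos hpz.le (not_lt.mp hn)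
    linarith
  set sp : ℝ := PN6_par z z' p with hsp
  have hsp01 := PN6_par_mem (A := side z p.1 p.2) (B := side z' p.1 p.2) hps
  have hsp0 : 0 < sp := hsp01.1
  have hsp1 : sp < 1 := hsp01.2
  -- all other separating leaves cross strictly before
  have hlt : ∀ q : Bd × Bd, q ∈ S.L → SepPts q.1 q.2 z z' → q ≠ p → q ≠ (p.2, p.1) →
      PN6_par z z' q < sp := by
    intro q hq hqs h1 h2
    refine lt_of_le_of_ne (hmax q hq hqs) fun heq => ?_
    obtain ⟨w, hw⟩ := t2a z z' sp hsp0.le hsp1.le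
    have e1 : side w p.1 p.2 = 0 := by
      rw [t2b z z' w sp hw p.1 p.2, PN6_val hps]
      have : side z p.1 p.2 / (side z p.1 p.2 - side z' p.1 p.2) = sp := rfl
      rw [this]; ring
    have e2 : side w q.1 q.2 = 0 := by
      rw [t2b z z' w sp hw q.1 q.2, PN6_val hqs]
      have : side z q.1 q.2 / (side z q.1 q.2 - side z' q.1 q.2) = sp := heq
      rw [this]; ring
    rcases t4 p q w (S.closed p hpL).1 (S.closed q hq).1 e1 e2 with h | h | h
    · exact h1 h
    · exact h2 h
    · exact S.unlinked p hpL q hq h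
  -- the parameter just before
  obtain ⟨s, hs0, hs1, hsq⟩ : ∃ s : ℝ, 0 < s ∧ s < sp ∧ ∀ q : Bd × Bd, q ∈ S.L →
      SepPts q.1 q.2 z z' → q ≠ p → q ≠ (p.2, p.1) → PN6_par z z' q < s := by
    have hR : {q : Bd × Bd | (q ∈ S.L ∧ SepPts q.1 q.2 z z') ∧ q ≠ p ∧ q ≠ (p.2, p.1)}.Finite :=
      hfin.subset fun q hq => hq.1
    have h1 : ∀ᶠ s in 𝓝[<] sp, ∀ q ∈ {q : Bd × Bd | (q ∈ S.L ∧ SepPts q.1 q.2 z z') ∧ q ≠ p ∧
        q ≠ (p.2, p.1)}, PN6_par z z' q < s := by
      rw [Filter.eventually_all_finite hR]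
      rintro q ⟨⟨h1, h2⟩, h3, h4⟩
      exact (eventually_gt_nhds (hlt q h1 h2 h3 h4)).filter_mono nhdsWithin_le_nhds
    have h2 : ∀ᶠ s in 𝓝[<] sp, 0 < s :=
      (eventually_gt_nhds hsp0).filter_mono nhdsWithin_le_nhds
    have h3 : ∀ᶠ s in 𝓝[<] sp, s < sp := self_mem_nhdsWithin
    obtain ⟨s, h4, h5, h6⟩ := (h1.and (h2.and h3)).exists
    exact ⟨s, h5, h6, fun q a b c d => h4 q ⟨⟨a, b⟩, c, d⟩⟩
  have hs1' : s ≤ 1 := by linarith
  obtain ⟨w, hw⟩ := t2a z z' s hs0.le hs1'
  have hside : ∀ q : Bd × Bd, side w q.1 q.2 = (1 - s) * side z q.1 q.2 + s * side z' q.1 q.2 :=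
    fun q => t2b z z' w s hw q.1 q.2
  -- trichotomy for leaves
  have hnonsep : ∀ q : Bd × Bd, q ∈ S.L → ¬ SepPts q.1 q.2 z z' →
      0 < side w q.1 q.2 * side z q.1 q.2 ∧ 0 < side w q.1 q.2 * side z' q.1 q.2 := by
    intro q hq hn
    have h1 : 0 < side z q.1 q.2 * side z' q.1 q.2 := by
      unfold SepPts at hn
      rcases lt_trichotomy (side z q.1 q.2 * side z' q.1 q.2) 0 with h | h | h
      · exact absurd h hn
      · rcases mul_eq_zero.mp h with h | h
        · exact absurd h (hz q hq)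
        · exact absurd h (hz' q hq)
      · exact h
    rw [hside]
    exact PN6_nonsep h1 hs0.le hs1'
  have hother : ∀ q : Bd × Bd, q ∈ S.L → SepPts q.1 q.2 z z' → q ≠ p → q ≠ (p.2, p.1) →
      0 < side w q.1 q.2 * side z' q.1 q.2 := by
    intro q hq hqs h1 h2
    rw [hside]
    exact PN6_pos_right hqs (hsq q hq hqs h1 h2)
  have hpw : 0 < side w p.1 p.2 * side z p.1 p.2 := by
    rw [hside]
    exact PN6_pos_left hps hs1
  have hpw' : side w p.1 p.2 < 0 := by
    by_contra hn
    have := mul_nonpos_of_nonneg_of_nonpos (not_lt.mp hn) hpz.le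
    linarith
  have hoff : S.OffPt w := by
    intro q hq h0
    by_cases hqs : SepPts q.1 q.2 z z'
    · by_cases h1 : q = p
      · rw [h1] at h0; linarith
      · by_cases h2 : q = (p.2, p.1)
        · rw [h2] at h0
          simp only at h0
          rw [PN6_swap] at h0
          linarith
        · have := hother q hq hqs h1 h2
          rw [h0] at this; simp at this
    · have := (hnonsep q hq hqs).1
      rw [h0] at this; simp at this
  have hacross : S.Across p w z' := by
    refine ⟨hpL, hpw', hpz', fun q hq hqs => ?_⟩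
    by_contra hcon
    push Not at hcon
    have hneg : side w q.1 q.2 * side z' q.1 q.2 < 0 := hqs
    by_cases hqs' : SepPts q.1 q.2 z z'
    · have := hother q hq hqs' hcon.1 hcon.2
      linarith
    · have := (hnonsep q hq hqs').2
      linarith
  have hpnot : ¬ SepPts p.1 p.2 z w := by
    unfold SepPts
    rw [mul_comm]; linarith
  refine ⟨p, w, hoff, hacross, ?_, ?_, ?_⟩
  · ext q
    simp only [Set.mem_union, Set.mem_setOf_eq, Set.mem_insert_iff, Set.mem_singleton_iff]
    constructor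
    · rintro (⟨hq, hqs⟩ | rfl | rfl)
      · refine ⟨hq, ?_⟩
        by_contra hn
        have := (hnonsep q hq hn).1
        have h2 : side z q.1 q.2 * side w q.1 q.2 < 0 := hqs
        rw [mul_comm] at h2
        linarith
      · exact ⟨hpL, hps⟩
      · exact ⟨S.swap p hpL, (PN6_sep_swap z z' p).mpr hps⟩
    · rintro ⟨hq, hqs⟩
      by_cases h1 : q = p
      · right; left; exact h1
      · by_cases h2 : q = (p.2, p.1)
        · right; right; exact h2
        · left
          refine ⟨hq, ?_⟩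
          have h3 := hother q hq hqs h1 h2
          have h4 : side z q.1 q.2 * side z' q.1 q.2 < 0 := hqs
          show side z q.1 q.2 * side w q.1 q.2 < 0
          have h5 : 0 < side z' q.1 q.2 ^ 2 := by
            have := hz' q hq
            positivity
          by_contra hn
          have h6 := not_lt.mp hn
          have h7 : (side z q.1 q.2 * side w q.1 q.2) * side z' q.1 q.2 ^ 2
              = (side z q.1 q.2 * side z' q.1 q.2) * (side w q.1 q.2 * side z' q.1 q.2) := by
            ring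
          have h8 : (side z q.1 q.2 * side z' q.1 q.2) * (side w q.1 q.2 * side z' q.1 q.2) < 0 :=
            mul_neg_of_neg_of_pos h4 h3
          have h9 : 0 ≤ (side z q.1 q.2 * side w q.1 q.2) * side z' q.1 q.2 ^ 2 :=
            mul_nonneg h6 h5.le
          linarith
  · rintro ⟨-, h⟩
    exact hpnot h
  · intro p' w' hw' ⟨hp'L, hf, hb, hall⟩ hfz
    by_contra hne'
    have hf' : side w' p'.1 p'.2 < 0 := hf
    have hb' : 0 < side z' p'.1 p'.2 := hb
    have hfz' : side z p'.1 p'.2 < 0 := hfz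
    have hp's : SepPts p'.1 p'.2 z z' := mul_neg_of_neg_of_pos hfz' hb'
    have hne2 : p' ≠ (p.2, p.1) := by
      intro h
      rw [h] at hfz'
      simp only at hfz'
      rw [PN6_swap] at hfz'
      linarith
    -- `w'` lies behind `p`
    have hw'p : 0 < side w' p.1 p.2 := by
      have h1 : ¬ SepPts p.1 p.2 w' z' := by
        intro h
        rcases hall p hpL h with h2 | h2
        · exact hne' h2.symm
        · apply hne2
          rw [h2]
      have h2 := hw' p hpL
      by_contra hn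
      have h3 : side w' p.1 p.2 < 0 := lt_of_le_of_ne (not_lt.mp hn) h2
      exact h1 (mul_neg_of_neg_of_pos h3 hpz')
    -- `w` lies behind `p'`
    have hwp' : 0 < side w p'.1 p'.2 := by
      have h3 := hother p' hp'L hp's hne' hne2
      by_contra hn
      have := mul_nonpos_of_nonpos_of_nonneg (not_lt.mp hn) hb'.le
      linarith
    rcases n1 Γ hΓ S p hpL p' hp'L hne' hne2 with h | h | h | h
    · have := t3a p p' w' h hw'p.le
      linarith
    · have := t3a p' p w h hwp'.le
      linarith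
    · have := t3b p p' z' h hpz'.le
      linarith
    · have := t3b (p.2, p.1) (p'.2, p'.1) z h (by
        simp only
        rw [PN6_swap]; linarith)
      simp only at this
      rw [PN6_swap] at this
      linarith

/-- PN6: chains of plaques between two points -/
theorem PN6 (t2 : PT2_stmt) (t3 : PT3_stmt) (t4 : PT4_stmt) (g5 : GM5_stmt) (n1 : PN1_stmt) :
    PN6_stmt := by
  intro Γ hΓ S
  have peel := fun z z' hz hz' hns => PN6_peel t2 t3 t4 g5 n1 hΓ S z z' hz hz' hns
  refine ⟨?_, peel⟩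
  intro z
  have key : ∀ n : ℕ, ∀ z' : ℍ, {q : Bd × Bd | q ∈ S.L ∧ SepPts q.1 q.2 z z'}.ncard = n →
      S.OffPt z → S.OffPt z' → Relation.ReflTransGen S.Step z z' := by
    intro n
    induction n using Nat.strong_induction_on with
    | _ n ih =>
      intro z' hn hz hz'
      by_cases hs : S.SamePl z z'
      · exact Relation.ReflTransGen.single ⟨hz, hz', Or.inl hs⟩
      · obtain ⟨p, w, hw, hac, hset, hpn, -⟩ := peel z z' hz hz' hs
        have hfin := (g5 Γ hΓ S).1 z z'
        have hlt : {q : Bd × Bd | q ∈ S.L ∧ SepPts q.1 q.2 z w}.ncard < n := by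
          rw [← hn]
          refine Set.ncard_lt_ncard ?_ hfin
          refine ⟨?_, fun hsub => ?_⟩
          · rw [← hset]; exact Set.subset_union_left
          · apply hpn
            apply hsub
            rw [← hset]
            right; left; rfl
        refine Relation.ReflTransGen.tail (ih _ hlt w rfl hz hw) ⟨hw, hz', Or.inr ⟨p, hac⟩⟩
  intro z' hz hz'
  exact key _ z' rfl hz hz'

end AdSBend
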