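import Pool.Agent.helper69.AD.GS6

/-!
Module XG4 (project MP_a29257_gt, existence part): the final assembly.
-/

open scoped MatrixGroups LinearAlgebra.Projectivization
open Matrix UpperHalfPlane
open Pool.Agent.helper73.AD (PS Arc Word sg AData Family PreFamily Cone bs)

namespace AdSBend

open LeafSystem

section

variable {Γ : Subgroup SL(2, ℝ)}

/-- the field of a weighted sum -/
theorem XG4_sg_sum {J K : Type} [Fintype J] [DecidableEq J] [Fintype K] (b : K → ℝ)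
    (l : K → (PS J →L[ℝ] ℝ)) : sg (∑ k, b k • l k) = ∑ k, b k • sg (l k) := by
  ext j
  · simp [sg, Prod.fst_sum, Finset.sum_apply]
  · simp [sg, Prod.snd_sum, Finset.sum_apply]

/-- coordinates depend only on the values on the group -/
theorem XG4_coord_congr (hG : ∀ (p : Bd × Bd), gen Γ p ∈ Γ) {S : LeafSystem Γ} {J : Type}
    (D : RefData S J) (r r' : SL(2, ℝ) → SL(2, ℝ)) (z : PS J) (h : ∀ γ ∈ Γ, r' γ = r γ)
    (hc : D.Coord r z) : D.Coord r' z := by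
  obtain ⟨h1, h2⟩ := hc
  refine ⟨fun j => ?_, fun j F G hF hG' => ?_⟩
  · rw [h _ (hG _)]
    exact h1 j
  · rw [h _ (hG _), h _ (hG _)] at hF hG'
    exact h2 j F G hF hG'

/-- the generator belongs to the group -/
theorem XG4_gen_mem (p : Bd × Bd) : gen Γ p ∈ Γ := by
  unfold gen
  split
  · rename_i h
    exact h.choose_spec.1
  · exact Γ.one_mem

/-- the weights are functions of the classes -/
theorem XG4_cls {S : LeafSystem Γ} {J : Type} (D : RefData S J) (l : WeightedMulticurve Γ)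
    (p : Bd × Bd) (hp : p ∈ S.L) :
    2 * l.w (D.P (D.cls p)).1 (D.P (D.cls p)).2 = 2 * l.w p.1 p.2 := by
  obtain ⟨γ, hγ, h | h⟩ := D.cls_inj _ (D.memP (D.cls p)) p hp (D.clsP _)
  · have : l.w p.1 p.2 = l.w (D.P (D.cls p)).1 (D.P (D.cls p)).2 := by
      conv_lhs => rw [h]
      exact l.invariant γ hγ _ _
    rw [this]
  · have : l.w p.1 p.2 = l.w (D.P (D.cls p)).1 (D.P (D.cls p)).2 := by
      conv_lhs => rw [h]
      rw [show (ga γ (sw (D.P (D.cls p)))).1 = γ • (D.P (D.cls p)).2 from rfl,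
        show (ga γ (sw (D.P (D.cls p)))).2 = γ • (D.P (D.cls p)).1 from rfl,
        l.invariant γ hγ, l.symm]
    rw [this]

/-- leaves are hyperbolic for a conjugate representation -/
theorem XG4_hyp (gm1 : GM1_stmt) (bd8 : BD8_stmt) (bd11 : BD11_stmt)
    (hΓ : IsClosedSurfaceGroup Γ) (S : LeafSystem Γ) (f : Bd ≃ Bd) (r : SL(2, ℝ) → SL(2, ℝ))
    (h : IsConjBy Γ f r) (p : Bd × Bd) (hp : p ∈ S.L) : 2 < |trc (r (gen Γ p))| := by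
  have h1 := gm1 Γ hΓ p (S.closed p hp)
  have h2 := (bd11 Γ f r h).2.2.2.2.1 _ h1.1 p h1.2.1
  exact (bd8.2.2.2.1 _).2 ⟨_, h2⟩

/-- XG4: existence -/
theorem XG4 (bd8 : BD8_stmt) (bd11 : BD11_stmt) (gm1 : GM1_stmt) (pn3 : PN3_stmt)
    (pn5 : PN5_stmt) (br2 : BR2_stmt) (tw2 : TW2_stmt) (fb4 : FB4_stmt) (tf2 : TF2_stmt)
    (fe1 : FE1_stmt) (fe2 : FE2_stmt) (fe6 : FE6_stmt) (xa3 : XA3_stmt) (xb3 : XB3_stmt)
    (xr4 : XR4_stmt) (xr6 : XR6_stmt) (xe2 : XE2_stmt) (xe8 : XE8_stmt) (xf1 : XF1_stmt)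
    (xf2 : XF2_stmt) (xf3 : XF3_stmt) (xg1 : XG1_stmt) (xg2 : XG2_stmt) (xg3 : XG3_stmt) :
    XG4_stmt := by
  intro Γ hΓ lm lp hfill
  obtain ⟨m, n, X, _, hSne, hS'ne, hlm, hlp, hcov⟩ := fe2 Γ hΓ lm lp hfill
  have hcov' : ∀ j, ∃ k i, (X.w k).j i = j := fun j => by
    obtain ⟨k, _, i, hi⟩ := hcov j
    exact ⟨k, i, hi⟩
  have hreal := xr6 Γ hΓ _ _ X hSne hS'ne hcov'
  have hCH := xg2 Γ hΓ lm lp hfill _ _ X hlm hlp hcov hreal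
  obtain ⟨z, hz, hz1⟩ := xa3 _ _ _ hCH
  have hz0 : z 0 ∈ X.Real := by
    rw [hreal]
    exact (hz 0 ⟨le_rfl, zero_le_one⟩).1
  obtain ⟨fR, rR, hR, hcR⟩ := hz0
  -- base points
  obtain ⟨p0, hp0⟩ := hS'ne
  obtain ⟨⟨z₀, hz₀⟩, -⟩ := pn3 Γ hΓ X.S' p0 hp0
  obtain ⟨p1, hp1⟩ := hSne
  obtain ⟨⟨z₁, hz₁⟩, -⟩ := pn3 Γ hΓ X.S p1 hp1
  have hoff0 : X.S'.OffPt z₀ := hz₀.1
  have hoff1 : X.S.OffPt z₁ := hz₁.1
  -- invariance of the weights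
  have hlpinv : ∀ γ ∈ Γ, ∀ p : Bd × Bd,
      2 * lp.w (ga γ p).1 (ga γ p).2 = 2 * lp.w p.1 p.2 := fun γ hγ p => by
    rw [show lp.w (ga γ p).1 (ga γ p).2 = lp.w p.1 p.2 from lp.invariant γ hγ _ _]
  have hlminv : ∀ γ ∈ Γ, ∀ p : Bd × Bd,
      2 * lm.w (ga γ p).1 (ga γ p).2 = 2 * lm.w p.1 p.2 := fun γ hγ p => by
    rw [show lm.w (ga γ p).1 (ga γ p).2 = lm.w p.1 p.2 from lm.invariant γ hγ _ _]
  have hlpsw : ∀ p : Bd × Bd, 2 * lp.w (sw p).1 (sw p).2 = 2 * lp.w p.1 p.2 := fun p => by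
    rw [show lp.w (sw p).1 (sw p).2 = lp.w p.1 p.2 from lp.symm _ _]
  have hlmsw : ∀ p : Bd × Bd, 2 * lm.w (sw p).1 (sw p).2 = 2 * lm.w p.1 p.2 := fun p => by
    rw [show lm.w (sw p).1 (sw p).2 = lm.w p.1 p.2 from lm.symm _ _]
  -- the earthquake along `lp` from the right structure
  obtain ⟨S0, hS0⟩ := br2 Γ lp
  have hsub0 : S0.L ⊆ X.S'.L := fun p hp => hlp p.1 p.2 ((hS0 p).1 hp)
  have hoff0' : S0.OffPt z₀ := fun p hp => hoff0 p (hsub0 hp)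
  have hPR := (bd11 Γ fR rR hR).2.2.2.2.2
  obtain ⟨⟨A0, hA0⟩, -⟩ := tw2 Γ hΓ S0 rR (fun p => 2 * lp.w p.1 p.2) z₀ hPR
    (XG4_hyp gm1 bd8 bd11 hΓ S0 fR rR hR) (fun γ hγ p _ => hlpinv γ hγ p)
    (fun p _ => hlpsw p) hoff0'
  obtain ⟨fL, hL, hQ0⟩ := xe8 Γ hΓ S0 fR rR (fun p => 2 * lp.w p.1 p.2) z₀ A0 hR hoff0'
    (fun γ hγ p _ => hlpinv γ hγ p) (fun p _ => hlpsw p) hA0
  -- the twist deformation along `X.S'`
  have htw : ∀ T : Fin n → ℝ, ∃ A, X.S'.IsTwist rR (fun p => T (X.D'.cls p)) z₀ A := fun T =>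
    (tw2 Γ hΓ X.S' rR (fun p => T (X.D'.cls p)) z₀ hPR
      (XG4_hyp gm1 bd8 bd11 hΓ X.S' fR rR hR)
      (fun γ hγ p hp => congrArg T (X.D'.cls_ga γ hγ p hp))
      (fun p hp => congrArg T (X.D'.cls_sw p hp)) hoff0).1
  choose A hA using htw
  obtain ⟨Φ, hΦ⟩ := fe1 Γ hΓ _ _ X fR rR z₀ A ⟨hR, hoff0, hA⟩
  set b : Fin n → ℝ := fun k => 2 * lp.w (X.D'.P k).1 (X.D'.P k).2 with hb
  set a : Fin m → ℝ := fun j => 2 * lm.w (X.D.P j).1 (X.D.P j).2 with ha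
  have hAA : ∀ w, X.S'.OffPt w → A b w = A0 w :=
    xg1 Γ hΓ lp S0 X.S' hS0 hsub0 rR (fun p => b (X.D'.cls p)) z₀ (A b) A0
      (XG4_hyp gm1 bd8 bd11 hΓ X.S' fR rR hR) (fun p hp => XG4_cls X.D' lp p hp) hoff0
      (hA b) hA0
  have hcL : X.D.Coord (fun γ => A0 (γ • z₀) * rR γ) (Φ.Z b) := by
    refine XG4_coord_congr XG4_gen_mem X.D _ _ _ (fun γ hγ => ?_) (hΦ b)
    show A0 (γ • z₀) * rR γ = A b (γ • z₀) * rR γ
    rw [hAA _ ((pn5 Γ X.S').2.2.1 γ hγ z₀ hoff0)]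
  have hAdmR : X.S.AdmS rR := tf2 Γ hΓ X.S fR rR hR
  -- the start of the family
  have hstart : z 0 = Φ.Z 0 := by
    refine (fb4 Γ hΓ X.S _ X.D rR hAdmR).2.1 (Φ.Z 0) (z 0) ?_ hcR
    refine XG4_coord_congr XG4_gen_mem X.D _ _ _ (fun γ hγ => ?_) (hΦ 0)
    show rR γ = A 0 (γ • z₀) * rR γ
    have h1 := ((tw2 Γ hΓ X.S' rR (fun p => (0 : Fin n → ℝ) (X.D'.cls p)) z₀ hPR
      (XG4_hyp gm1 bd8 bd11 hΓ X.S' fR rR hR) (fun γ hγ p hp => rfl)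
      (fun p hp => rfl) hoff0).2 (A 0) (hA 0)).2.2.2.2 rfl (γ • z₀)
      ((pn5 Γ X.S').2.2.1 γ hγ z₀ hoff0)
    rw [h1, one_mul]
  -- the trajectory is the trajectory of the family
  have hb0 : ∀ k, 0 ≤ b k := fun k => by
    rw [hb]
    have := lp.nonneg (X.D'.P k).1 (X.D'.P k).2
    show 0 ≤ 2 * lp.w (X.D'.P k).1 (X.D'.P k).2
    linarith
  have hend : z 1 = Φ.Z b := by
    refine xg3 _ _ X.w Φ b z (fun t ht => ⟨(hz t ht).1, ?_⟩) hstart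
    have h1 := (hz t ht).2
    have h2 := ((xb3 _ _ X.w b hb0).2.2 (z t) (hz t ht).1).2
    rw [← XG4_sg_sum, ← h2]
    exact h1
  rw [← hend] at hcL
  -- the earthquake along `lm` from the left structure
  obtain ⟨S1, hS1⟩ := br2 Γ lm
  have hsub1 : S1.L ⊆ X.S.L := fun p hp => hlm p.1 p.2 ((hS1 p).1 hp)
  have hoff1' : S1.OffPt z₁ := fun p hp => hoff1 p (hsub1 hp)
  set rL : SL(2, ℝ) → SL(2, ℝ) := fun γ => A0 (γ • z₀) * rR γ with hrL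
  have hPL := (bd11 Γ fL rL hL).2.2.2.2.2
  obtain ⟨⟨A1, hA1⟩, -⟩ := tw2 Γ hΓ S1 rL (fun p => 2 * lm.w p.1 p.2) z₁ hPL
    (XG4_hyp gm1 bd8 bd11 hΓ S1 fL rL hL) (fun γ hγ p _ => hlminv γ hγ p)
    (fun p _ => hlmsw p) hoff1'
  obtain ⟨f2, hf2, hQ1⟩ := xe8 Γ hΓ S1 fL rL (fun p => 2 * lm.w p.1 p.2) z₁ A1 hL hoff1'
    (fun γ hγ p _ => hlminv γ hγ p) (fun p _ => hlmsw p) hA1
  obtain ⟨⟨A2, hA2⟩, -⟩ := tw2 Γ hΓ X.S rL (fun p => a (X.D.cls p)) z₁ hPL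
    (XG4_hyp gm1 bd8 bd11 hΓ X.S fL rL hL)
    (fun γ hγ p hp => congrArg a (X.D.cls_ga γ hγ p hp))
    (fun p hp => congrArg a (X.D.cls_sw p hp)) hoff1
  obtain ⟨f3, hf3, hQ2⟩ := xe8 Γ hΓ X.S fL rL (fun p => a (X.D.cls p)) z₁ A2 hL hoff1
    (fun γ hγ p hp => congrArg a (X.D.cls_ga γ hγ p hp))
    (fun p hp => congrArg a (X.D.cls_sw p hp)) hA2
  have hAA1 : ∀ w, X.S.OffPt w → A2 w = A1 w :=
    xg1 Γ hΓ lm S1 X.S hS1 hsub1 rL (fun p => a (X.D.cls p)) z₁ A2 A1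
      (XG4_hyp gm1 bd8 bd11 hΓ X.S fL rL hL) (fun p hp => XG4_cls X.D lm p hp) hoff1
      hA2 hA1
  have hc3 := xr4 Γ hΓ _ X.S X.D X.pants ⟨p1, hp1⟩ fL f3 rL _ A2 a (z 1) hL hf3 hQ2 hcL
  have hz1' : z 1 + ((0 : Fin m → ℝ), a) = z 0 := by
    rw [hz1]
    exact sub_add_cancel _ _
  rw [hz1'] at hc3
  have hc2 : X.D.Coord (fun γ => A1 (γ • z₁) * rL γ) (z 0) := by
    refine XG4_coord_congr XG4_gen_mem X.D _ _ _ (fun γ hγ => ?_) hc3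
    show A1 (γ • z₁) * rL γ = A2 (γ • z₁) * rL γ
    rw [hAA1 _ ((pn5 Γ X.S).2.2.1 γ hγ z₁ hoff1)]
  -- the result is conjugate to the right structure
  obtain ⟨g, hg⟩ := fe6 Γ hΓ _ X.S X.D X.pants ⟨p1, hp1⟩ (fun γ => A1 (γ • z₁) * rL γ) rR (z 0)
    (tf2 Γ hΓ X.S f2 _ hf2) hAdmR hc2 hcR
  have hfg := xe2.2 Γ hΓ f2 fR (fun γ => A1 (γ • z₁) * rL γ) rR g hf2 hR hg
  have hQ : S1.IsQuake (fun p => 2 * lm.w p.1 p.2) fL fR rL (fun w => g * A1 w) := by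
    refine ⟨⟨fun w w' hw hw' h => ?_, fun w w' p hw hw' h => ?_⟩, fun w hw c hc => ?_⟩
    · show g * A1 w = g * A1 w'
      rw [hQ1.1.1 w w' hw hw' h]
    · show g * A1 w' = g * A1 w * _
      rw [hQ1.1.2 w w' p hw hw' h, mul_assoc]
    · show (g * A1 w) • fL c = fR c
      rw [mul_smul, hQ1.2 w hw c hc, hfg]
  -- the structure
  obtain ⟨hRm, hRbd, -⟩ := xf1 Γ fR rR hR
  obtain ⟨hLm, hLbd, -⟩ := xf1 Γ fL rL hL
  refine ⟨⟨hLm, hRm⟩, ?_, ?_⟩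
  · refine xf3 Γ hΓ lm S1 hS1 ⟨hLm, hRm⟩ rL rR (fun w => g * A1 w) ?_ ?_ ?_
    · show IsConjBy Γ hLm.bd rL
      rw [hLbd]
      exact hL
    · show IsConjBy Γ hRm.bd rR
      rw [hRbd]
      exact hR
    · show S1.IsQuake (fun p => 2 * lm.w p.1 p.2) hLm.bd hRm.bd rL (fun w => g * A1 w)
      rw [hLbd, hRbd]
      exact hQ
  · refine xf2 Γ hΓ lp S0 hS0 ⟨hLm, hRm⟩ rR rL A0 ?_ ?_ ?_
    · show IsConjBy Γ hRm.bd rR
      rw [hRbd]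
      exact hR
    · show IsConjBy Γ hLm.bd rL
      rw [hLbd]
      exact hL
    · show S0.IsQuake (fun p => 2 * lp.w p.1 p.2) hRm.bd hLm.bd rR A0
      rw [hLbd, hRbd]
      exact hQ0

end

end AdSBend
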